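import Pool.Agent.Helper38.MS.Defs

/-!
# The two forms of the potential
-/

set_option autoImplicit false

namespace Pool.Agent.Helper38.MS

open FirstOrder Pool.Agent.Helper20.Spectra Pool.Agent.Helper31.QD Pool.Agent.Helper38.MC
  Pool.Agent.Helper58.QD Pool.Agent.Helper40.MC Pool.Agent.Helper6.MC Pool.Agent.Helper6.EA

variable {V : Type} [Fintype V]

/-- a permutation which fixes `A`, restricted to the complement -/
private theorem notMem_iff83 {A : Finset V} {g : Equiv.Perm V} (hg : ∀ x ∈ A, g x = x) (x : V) :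
    g x ∉ A ↔ x ∉ A := by
  rw [not_iff_not]
  constructor
  · intro h
    have h1 := hg _ h
    have h2 := g.injective h1
    rw [h2] at h
    exact h
  · intro h
    rw [hg x h]
    exact h

/-- a permutation which fixes `A`, restricted to the complement -/
def rst83 {A : Finset V} (g : Equiv.Perm V) (hg : ∀ x ∈ A, g x = x) : Equiv.Perm {v : V // v ∉ A} :=
  g.subtypePerm (notMem_iff83 hg)

private theorem rst83_val {A : Finset V} (g : Equiv.Perm V) (hg : ∀ x ∈ A, g x = x) (x : {v : V // v ∉ A}) :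
    (rst83 g hg x).1 = g x.1 := rfl

private theorem rst83_mem {G : Subgroup (Equiv.Perm V)} {A : Finset V} {g : Equiv.Perm V} (h : g ∈ GS G A) :
    rst83 g (mem_GS.1 h).2 ∈ res G (fun x : {v : V // v ∉ A} => x.1) Subtype.val_injective := by
  rw [mem_res]
  intro σ h1 h2
  have h3 : σ = g := by
    ext z
    by_cases hz : z ∈ A
    · rw [(mem_GS.1 h).2 z hz]
      apply h2
      rintro ⟨x, hx⟩ rfl
      exact hx hz
    · exact h1 ⟨z, hz⟩
  rw [h3]
  exact (mem_GS.1 h).1

private theorem ext83 {G : Subgroup (Equiv.Perm V)} {A : Finset V} {γ : Equiv.Perm {v : V // v ∉ A}}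
    (h : γ ∈ res G (fun x : {v : V // v ∉ A} => x.1) Subtype.val_injective) :
    ∃ g : Equiv.Perm V, ∃ hg : g ∈ GS G A, rst83 g (mem_GS.1 hg).2 = γ := by
  obtain ⟨σ, h1, h2⟩ := exists_ext (w := fun x : {v : V // v ∉ A} => x.1) Subtype.val_injective γ
  have h3 : σ ∈ G := mem_res.1 h σ h1 h2
  have h4 : σ ∈ GS G A := mem_GS.2 ⟨h3, fun z hz => h2 z (by
    rintro ⟨x, hx⟩ rfl
    exact hx hz)⟩
  refine ⟨σ, h4, ?_⟩
  ext x
  rw [rst83_val]
  exact h1 x

/-- the orders -/
theorem card_GS83 (G : Subgroup (Equiv.Perm V)) (A : Finset V) :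
    (GS G A).card = Nat.card (res G (fun x : {v : V // v ∉ A} => x.1) Subtype.val_injective) := by
  classical
  rw [← Fintype.card_coe, ← Nat.card_eq_fintype_card]
  refine Nat.card_congr (Equiv.ofBijective (fun g : {g // g ∈ GS G A} =>
    (⟨rst83 g.1 (mem_GS.1 g.2).2, rst83_mem g.2⟩ :
      {γ // γ ∈ res G (fun x : {v : V // v ∉ A} => x.1) Subtype.val_injective})) ⟨?_, ?_⟩)
  · rintro ⟨g, hg⟩ ⟨g', hg'⟩ h
    have h1 : rst83 g (mem_GS.1 hg).2 = rst83 g' (mem_GS.1 hg').2 := congrArg Subtype.val h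
    apply Subtype.ext
    show g = g'
    ext z
    by_cases hz : z ∈ A
    · rw [(mem_GS.1 hg).2 z hz, (mem_GS.1 hg').2 z hz]
    · have h2 := congrArg (fun γ : Equiv.Perm {v : V // v ∉ A} => (γ ⟨z, hz⟩).1) h1
      exact h2
  · rintro ⟨γ, hγ⟩
    obtain ⟨g, hg, h⟩ := ext83 hγ
    exact ⟨⟨g, hg⟩, Subtype.ext h⟩

/-- the colourings which vanish on `A` are the colourings of the complement -/
noncomputable def colE83 (c : ℕ) (A : Finset V) :
    {f : V → Fin c → Bool // ∀ a ∈ A, f a = fun _ => false} ≃ ({v : V // v ∉ A} → Fin c → Bool) := by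
  classical
  exact
  { toFun := fun f x => f.1 x.1
    invFun := fun f => ⟨fun z => if hz : z ∈ A then fun _ => false else f ⟨z, hz⟩, fun a ha => by simp [ha]⟩
    left_inv := by
      rintro ⟨f, hf⟩
      apply Subtype.ext
      funext z
      by_cases hz : z ∈ A
      · simp only [hz, dif_pos]
        exact (hf z hz).symm
      · simp only [hz, dif_neg, not_false_eq_true]
    right_inv := by
      intro f
      funext x
      simp only [x.2, dif_neg, not_false_eq_true] }

/-- the numbers of orbits on the colourings -/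
theorem ocA_eq83 (c : ℕ) (G : Subgroup (Equiv.Perm V)) (A : Finset V) :
    ocA c G A = oc c (res G (fun x : {v : V // v ∉ A} => x.1) Subtype.val_injective) := by
  unfold ocA oc
  refine Nat.card_congr (Quotient.congr (colE83 c A) ?_)
  rintro ⟨f, hf⟩ ⟨f', hf'⟩
  constructor
  · rintro ⟨h, hh, h1⟩
    have h1' : f' = f ∘ h := h1
    refine ⟨rst83 h (mem_GS.1 hh).2, rst83_mem hh, ?_⟩
    funext x
    show f' x.1 = f (h x.1)
    rw [h1']
    rfl
  · rintro ⟨γ, hγ, h1⟩
    obtain ⟨g, hg, h2⟩ := ext83 hγ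
    refine ⟨g, hg, ?_⟩
    show f' = f ∘ g
    funext z
    by_cases hz : z ∈ A
    · show f' z = f (g z)
      rw [(mem_GS.1 hg).2 z hz, hf' z hz, hf z hz]
    · have h3 := congrFun h1 ⟨z, hz⟩
      rw [← h2] at h3
      exact h3

/-- MS4b: the two forms of the potential -/
theorem FA_eq (c e : ℕ) (G : Subgroup (Equiv.Perm V)) (A : Finset V) :
    FA c e G A = Fp c e (res G (fun x : {v : V // v ∉ A} => x.1) Subtype.val_injective) := by
  unfold FA Fp
  rw [card_GS83, ocA_eq83]

theorem FA_empty (c e : ℕ) (G : Subgroup (Equiv.Perm V)) : FA c e G ∅ = Fp c e G := by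
  classical
  unfold FA Fp
  have h1 : (GS G ∅).card = Nat.card G := by
    rw [← Fintype.card_coe, ← Nat.card_eq_fintype_card]
    refine Nat.card_congr (Equiv.subtypeEquivRight fun g => ?_)
    rw [mem_GS]
    simp
  have h2 : ocA c G ∅ = oc c G := by
    unfold ocA oc
    refine Nat.card_congr (Quotient.congr (Equiv.subtypeUnivEquiv (fun f a ha => by simp at ha)) ?_)
    rintro ⟨f, hf⟩ ⟨f', hf'⟩
    constructor
    · rintro ⟨h, hh, h3⟩
      exact ⟨h, (mem_GS.1 hh).1, h3⟩
    · rintro ⟨h, hh, h3⟩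
      exact ⟨h, mem_GS.2 ⟨hh, fun a ha => by simp at ha⟩, h3⟩
  rw [h1, h2]

end Pool.Agent.Helper38.MS
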