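import Pool.Agent.Helper38.MS.Defs

/-!
# The potential when a set is fixed
-/

set_option autoImplicit false

namespace Pool.Agent.Helper38.MS

open FirstOrder Pool.Agent.Helper20.Spectra Pool.Agent.Helper31.QD Pool.Agent.Helper38.MC
  Pool.Agent.Helper58.QD Pool.Agent.Helper40.MC Pool.Agent.Helper6.MC Pool.Agent.Helper6.EA

variable {V : Type} [Fintype V]

open Classical in
private theorem card_insert83 (G : Subgroup (Equiv.Perm V)) (A : Finset V) (b : V) :
    (GS G A).card ≤ (orb (G ⊓ fixP (A : Set V)) b).card * (GS G (insert b A)).card := by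
  choose! h hh using fun (y : V) (hy : y ∈ orb (G ⊓ fixP (A : Set V)) b) => mem_orb'.1 hy
  have key : ∀ g ∈ GS G A, g b ∈ orb (G ⊓ fixP (A : Set V)) b := fun g hg => mem_orb'.2 ⟨g, hg, rfl⟩
  rw [← Finset.card_product]
  apply Finset.card_le_card_of_injOn (fun g => (g b, (h (g b))⁻¹ * g))
  · intro g hg
    have hg : g ∈ GS G A := hg
    obtain ⟨h1, h2⟩ := hh _ (key g hg)
    have h3 : (h (g b))⁻¹ * g ∈ GS G A := GS_mul (GS_inv h1) hg
    simp only [Finset.coe_product, Set.mem_prod, Finset.mem_coe]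
    refine ⟨key g hg, mem_GS.2 ⟨(mem_GS.1 h3).1, fun a ha => ?_⟩⟩
    rcases Finset.mem_insert.1 ha with rfl | ha
    · rw [Equiv.Perm.mul_apply, Equiv.Perm.inv_eq_iff_eq, h2]
    · exact (mem_GS.1 h3).2 a ha
  · intro g _ g' _ he
    simp only [Prod.mk.injEq] at he
    obtain ⟨e1, e2⟩ := he
    rw [e1] at e2
    exact mul_left_cancel e2

open Classical in
private theorem orb_sub83 (G : Subgroup (Equiv.Perm V)) (A : Finset V) (x : V) :
    orb (G ⊓ fixP (A : Set V)) x ⊆ orb G x := by
  intro y hy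
  unfold orb at hy ⊢
  rw [Finset.mem_filter] at hy ⊢
  obtain ⟨h1, σ, hσ, h2⟩ := hy
  exact ⟨h1, σ, (Subgroup.mem_inf.1 hσ).1, h2⟩

/-- the order of the group, when a set is fixed -/
theorem card_fix83 (G : Subgroup (Equiv.Perm V)) (A : Finset V) {s : ℕ} (hs : ∀ x, (orb G x).card ≤ s) :
    (GS G ∅).card ≤ s ^ A.card * (GS G A).card := by
  classical
  induction A using Finset.induction_on with
  | empty => rw [Finset.card_empty, pow_zero, one_mul]
  | insert b B hb ih =>
    refine ih.trans ?_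
    rw [Finset.card_insert_of_notMem hb, pow_succ, mul_assoc]
    refine Nat.mul_le_mul_left _ ((card_insert83 G B b).trans ?_)
    exact Nat.mul_le_mul_right _ ((Finset.card_le_card (orb_sub83 G B b)).trans (hs b))

open Classical in
/-- a colouring, made to vanish on `A` -/
noncomputable def off83 {c : ℕ} (A : Finset V) (f : V → Fin c → Bool) :
    {f : V → Fin c → Bool // ∀ a ∈ A, f a = fun _ => false} :=
  ⟨fun z => if z ∈ A then fun _ => false else f z, fun a ha => if_pos ha⟩

/-- the number of orbits on the colourings, when a set is fixed -/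
theorem ocA_fix83 (c : ℕ) (G : Subgroup (Equiv.Perm V)) (A : Finset V) :
    ocA c G ∅ ≤ 2 ^ (c * A.card) * ocA c G A := by
  classical
  have h1 : Nat.card ({a // a ∈ A} → Fin c → Bool) = 2 ^ (c * A.card) := by
    rw [Nat.card_eq_fintype_card]
    simp only [Fintype.card_pi, Fintype.card_bool, Finset.prod_const, Finset.card_univ, Fintype.card_fin,
      Fintype.card_coe]
    rw [pow_mul]
  unfold ocA
  rw [← h1, ← Nat.card_prod]
  refine Nat.card_le_card_of_injective (fun q : Quotient (ocSA c G ∅) =>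
    ((fun a => q.out.1 a.1, Quotient.mk (ocSA c G A) (off83 A q.out.1)) :
      ({a // a ∈ A} → Fin c → Bool) × Quotient (ocSA c G A))) ?_
  intro q q' h
  rw [Prod.mk.injEq] at h
  obtain ⟨e1, e2⟩ := h
  obtain ⟨g, hg, hgf⟩ := Quotient.exact e2
  rw [← Quotient.out_eq q, ← Quotient.out_eq q']
  refine Quotient.sound ⟨g, mem_GS.2 ⟨(mem_GS.1 hg).1, fun a ha => by simp at ha⟩, ?_⟩
  funext z
  show q'.out.1 z = q.out.1 (g z)
  by_cases hz : z ∈ A
  · rw [(mem_GS.1 hg).2 z hz]
    exact (congrFun e1 ⟨z, hz⟩).symm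
  · have hgz : g z ∉ A := by
      intro h
      have h2 := (mem_GS.1 hg).2 _ h
      have h3 := g.injective h2
      rw [h3] at h
      exact hz h
    have h4 := congrFun hgf z
    have h5 : (off83 A q'.out.1).1 z = q'.out.1 z := if_neg hz
    have h6 : ((off83 A q.out.1).1 ∘ g) z = q.out.1 (g z) := if_neg hgz
    rw [← h5, ← h6]
    exact h4

/-- MS5: fixing a set -/
theorem fix_le83 (c e : ℕ) (G : Subgroup (Equiv.Perm V)) (A : Finset V) {s : ℕ} (hs : ∀ x, (orb G x).card ≤ s) :
    FA c e G ∅ ≤ (s * 2 ^ (c * e)) ^ A.card * FA c e G A := by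
  unfold FA
  calc (GS G ∅).card * ocA c G ∅ ^ e
      ≤ (s ^ A.card * (GS G A).card) * (2 ^ (c * A.card) * ocA c G A) ^ e :=
        Nat.mul_le_mul (card_fix83 G A hs) (Nat.pow_le_pow_left (ocA_fix83 c G A) e)
    _ = (s * 2 ^ (c * e)) ^ A.card * ((GS G A).card * ocA c G A ^ e) := by
        rw [mul_pow, mul_pow, ← pow_mul, ← pow_mul, show c * A.card * e = c * e * A.card by ring]
        ring

end Pool.Agent.Helper38.MS
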